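import Mathlib
import Pool.Agent.H13.Planar

set_option autoImplicit false
set_option maxRecDepth 100000

namespace Pool.Agent.Results.MP_7589f8_co.Counter

open Pool.Agent.H13.Planar

/-- `D` is an orientation of `G`: arcs are edges, and each edge gets exactly one direction. -/
def IsOrientation {V : Type} (G : SimpleGraph V) (D : V → V → Prop) : Prop :=
  (∀ u v, D u v → G.Adj u v) ∧ ∀ u v, G.Adj u v → (D u v ↔ ¬ D v u)

inductive Tr
  | s : Tr
  | l : Bool → ℕ → Tr
  | n : Tr → Tr → Tr

def pe : List (ℕ × ℕ) := [(0, 3), (0, 4), (1, 3), (1, 5), (1, 6), (2, 4), (2, 5), (2, 7), (3, 4), (3, 6), (3, 8), (3, 9),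
  (3, 10), (3, 11), (4, 7), (4, 9), (5, 6), (5, 7), (5, 8), (6, 8), (6, 10), (6, 12), (6, 13),
  (6, 15), (6, 16), (7, 8), (7, 9), (8, 9), (8, 11), (8, 12), (10, 11), (10, 13), (10, 14), (10,
  16), (10, 19), (10, 20), (11, 12), (11, 13), (12, 13), (13, 14), (13, 15), (13, 17), (14, 17),
  (14, 19), (15, 16), (15, 17), (15, 18), (16, 18), (16, 20), (17, 18), (17, 19), (18, 19), (18,
  20), (19, 20)]

def inn : List ℕ := List.range' 3 18

def chk : Tr → ℕ → ℕ → ℕ → Bool
  | .s, _, R, B => (R.testBit 0 && R.testBit 1 && R.testBit 2) ||
      (B.testBit 0 && B.testBit 1 && B.testBit 2)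
  | .l c S, _, R, B => decide (S &&& (if c then R else B) = S) &&
      decide (inn.countP S.testBit < pe.countP (fun e => S.testBit e.1 && S.testBit e.2))
  | .n a b, d, R, B => chk a (d + 1) (R ||| 2 ^ d) B && chk b (d + 1) R (B ||| 2 ^ d)

def Ex (c : ℕ → Bool) (x : Bool) (k : ℕ) : Prop :=
  ∃ S : ℕ → Bool, (∀ j, S j = true → c j = x) ∧
    inn.countP S + k ≤ pe.countP (fun e => S e.1 && S e.2)

lemma chk_ok (c : ℕ → Bool) : ∀ (t : Tr) (d R B : ℕ), chk t d R B = true →
    (∀ j, R.testBit j = true → c j = true) → (∀ j, B.testBit j = true → c j = false) →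
    (c 0 = c 1 ∧ c 1 = c 2) ∨ ∃ x, Ex c x 1
  | .s, _, R, B, h, hR, hB => by
    simp only [chk, Bool.or_eq_true, Bool.and_eq_true] at h
    left
    rcases h with ⟨⟨a, b⟩, e⟩ | ⟨⟨a, b⟩, e⟩
    · rw [hR 0 a, hR 1 b, hR 2 e]; simp
    · rw [hB 0 a, hB 1 b, hB 2 e]; simp
  | .l x S, _, R, B, h, hR, hB => by
    simp only [chk, Bool.and_eq_true, decide_eq_true_eq] at h
    refine Or.inr ⟨x, S.testBit, fun j hj => ?_, h.2⟩
    rw [← h.1, Nat.testBit_and, Bool.and_eq_true] at hj
    cases x
    · exact hB j hj.2
    · exact hR j hj.2
  | .n a b, d, R, B, h, hR, hB => by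
    simp only [chk, Bool.and_eq_true] at h
    have key : ∀ (M : ℕ) (x : Bool), c d = x → (∀ j, M.testBit j = true → c j = x) →
        ∀ j, (M ||| 2 ^ d).testBit j = true → c j = x := by
      intro M x hx hM j hj
      rw [Nat.testBit_or, Bool.or_eq_true, Nat.testBit_two_pow] at hj
      rcases hj with hj | hj
      · exact hM j hj
      · rw [← of_decide_eq_true hj]; exact hx
    cases hc : c d
    · exact chk_ok c b _ _ _ h.2 hR (key B false hc hB)
    · exact chk_ok c a _ _ _ h.1 (key R true hc hR) hB

open Tr in
def tree : Tr :=
  (n (n (n s (n (l true 11) (n (n (n (l true 99) (n (l true 179) (n (n (l true 819) (n (n (n (l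
  true 6435) (n (l true 11555) (l false 13004))) (n (n (n (l true 29987) (n (n (l true 111907) (n
  (l true 176419) (n (n (l true 832803) (n (l true 1357091) (l false 1786572))) (n (n (l true
  1586467) (l false 1376972)) (l false 1000140))))) (n (n (n (l true 472355) (n (l true 668963)
  (n (l true 1127715) (l false 1868492)))) (n (n (l true 865571) (l false 705228)) (l false
  426700))) (l false 99020)))) (l false 10956)) (l false 6860))) (l false 1740))) (l false
  460)))) (n (n (n (l true 467) (n (l true 659) (l false 812))) (l false 164)) (n (n (n (l true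
  915) (n (n (n (l true 6547) (n (l true 11667) (l false 12388))) (n (n (n (l true 30099) (n (n
  (l true 112019) (n (l true 176531) (n (n (l true 832915) (n (l true 1357203) (l false
  1785956))) (n (n (l true 1586579) (l false 1376356)) (l false 999524))))) (n (n (n (l true
  472467) (n (l true 669075) (n (l true 1127827) (l false 1867876)))) (n (n (l true 865683) (l
  false 704612)) (l false 426084))) (l false 98404)))) (l false 10348)) (l false 6252))) (l false
  1132))) (l false 364)) (l false 164)))) (n (n (l true 99) (n (n (l true 419) (l false 348)) (l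
  false 148))) (n (n (n (n (l true 963) (l false 540)) (l false 316)) (l false 180)) (l false
  124)))))) (n (n (n (l true 29) (n (n (l true 109) (n (l true 165) (n (l true 301) (n (n (n (l
  true 3085) (n (n (n (l true 25613) (n (n (l true 107533) (n (l true 173069) (n (n (l true
  828429) (n (l true 1352717) (l false 1785922))) (n (n (l true 1573901) (l false 1376322)) (l
  false 999490))))) (n (n (n (l true 467981) (n (l true 664589) (n (l true 1115149) (l false
  1867842)))) (n (n (l true 853005) (l false 704578)) (l false 426050))) (l false 98370)))) (l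
  false 10562)) (l false 6466))) (n (n (n (l true 14349) (l false 9282)) (l false 4418)) (l false
  3394))) (l false 978))))) (n (n (n (l true 461) (n (l true 653) (n (l true 1101) (n (n (l true
  6221) (n (l true 10317) (n (n (n (l true 98381) (n (n (l true 426061) (n (l true 704589) (l
  false 865570))) (n (n (n (l true 1867853) (l false 1127714)) (l false 668962)) (l false
  472354)))) (n (n (n (n (l true 999501) (n (l true 1376333) (l false 1586466))) (n (n (l true
  1785933) (l false 1357090)) (l false 832802))) (l false 176418)) (l false 111906))) (l false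
  29986)))) (n (n (l true 12365) (l false 11554)) (l false 6434)))))) (n (l true 333) (l false
  418))) (l false 98)))) (n (l true 21) (n (n (n (l true 165) (n (l true 357) (l false 410))) (l
  false 74)) (n (n (n (n (l true 901) (l false 538)) (l false 298)) (l false 186)) (l false
  106))))) (n (n (l true 25) (n (n (n (n (l true 489) (n (l true 745) (n (l true 1097) (n (n (l
  true 6217) (n (l true 10313) (n (n (n (l true 98377) (n (n (l true 426057) (n (l true 704585)
  (l false 866070))) (n (n (n (l true 1867849) (l false 1128214)) (l false 669462)) (l false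
  472854)))) (n (n (n (n (l true 999497) (n (l true 1376329) (l false 1586966))) (n (n (l true
  1785929) (l false 1357590)) (l false 833302))) (l false 176918)) (l false 112406))) (l false
  30486)))) (n (n (l true 12361) (l false 12054)) (l false 6934)))))) (l false 150)) (n (n (l
  true 425) (n (n (n (l true 3081) (n (n (n (l true 25609) (n (n (l true 107529) (n (l true
  173065) (n (n (l true 828425) (n (l true 1352713) (l false 1785926))) (n (n (l true 1573897) (l
  false 1376326)) (l false 999494))))) (n (n (n (l true 467977) (n (l true 664585) (n (l true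
  1115145) (l false 1867846)))) (n (n (l true 853001) (l false 704582)) (l false 426054))) (l
  false 98374)))) (l false 10566)) (l false 6470))) (n (n (n (l true 14345) (l false 9286)) (l
  false 4422)) (l false 3398))) (l false 854))) (l false 150))) (l false 38))) (n (n (n (n (n (l
  true 497) (n (l true 657) (l false 782))) (n (n (l true 881) (l false 654)) (l false 398))) (l
  false 78)) (l false 38)) (l false 30))))) (n (n (n (n (l true 30) (n (l true 38) (n (l true 78)
  (n (n (l true 398) (n (l true 654) (l false 881))) (n (n (l true 782) (l false 657)) (l false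
  497)))))) (n (n (l true 38) (n (n (l true 150) (n (n (l true 854) (n (n (l true 3398) (n (l
  true 4422) (n (l true 9286) (l false 14345)))) (n (n (l true 6470) (n (l true 10566) (n (n (n
  (l true 98374) (n (n (l true 426054) (n (l true 704582) (l false 853001))) (n (n (n (l true
  1867846) (l false 1115145)) (l false 664585)) (l false 467977)))) (n (n (n (n (l true 999494)
  (n (l true 1376326) (l false 1573897))) (n (n (l true 1785926) (l false 1352713)) (l false
  828425))) (l false 173065)) (l false 107529))) (l false 25609)))) (l false 3081)))) (l false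
  425))) (n (l true 150) (n (n (n (n (n (l true 6934) (n (l true 12054) (l false 12361))) (n (n
  (n (l true 30486) (n (n (l true 112406) (n (l true 176918) (n (n (l true 833302) (n (l true
  1357590) (l false 1785929))) (n (n (l true 1586966) (l false 1376329)) (l false 999497))))) (n
  (n (n (l true 472854) (n (l true 669462) (n (l true 1128214) (l false 1867849)))) (n (n (l true
  866070) (l false 704585)) (l false 426057))) (l false 98377)))) (l false 10313)) (l false
  6217))) (l false 1097)) (l false 745)) (l false 489))))) (l false 25))) (n (n (n (n (l true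
  106) (n (l true 186) (n (l true 298) (n (l true 538) (l false 901))))) (n (l true 74) (n (n (l
  true 410) (l false 357)) (l false 165)))) (l false 21)) (n (n (n (l true 98) (n (n (l true 418)
  (l false 333)) (n (n (n (n (n (l true 6434) (n (l true 11554) (l false 12365))) (n (n (n (l
  true 29986) (n (n (l true 111906) (n (l true 176418) (n (n (l true 832802) (n (l true 1357090)
  (l false 1785933))) (n (n (l true 1586466) (l false 1376333)) (l false 999501))))) (n (n (n (l
  true 472354) (n (l true 668962) (n (l true 1127714) (l false 1867853)))) (n (n (l true 865570)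
  (l false 704589)) (l false 426061))) (l false 98381)))) (l false 10317)) (l false 6221))) (l
  false 1101)) (l false 653)) (l false 461)))) (n (n (n (n (l true 978) (n (n (l true 3394) (n (l
  true 4418) (n (l true 9282) (l false 14349)))) (n (n (l true 6466) (n (l true 10562) (n (n (n
  (l true 98370) (n (n (l true 426050) (n (l true 704578) (l false 853005))) (n (n (n (l true
  1867842) (l false 1115149)) (l false 664589)) (l false 467981)))) (n (n (n (n (l true 999490)
  (n (l true 1376322) (l false 1573901))) (n (n (l true 1785922) (l false 1352717)) (l false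
  828429))) (l false 173069)) (l false 107533))) (l false 25613)))) (l false 3085)))) (l false
  301)) (l false 165)) (l false 109))) (l false 29)))) (n (n (n (n (n (l true 124) (n (l true
  180) (n (l true 316) (n (l true 540) (l false 963))))) (n (n (l true 148) (n (l true 348) (l
  false 419))) (l false 99))) (n (n (n (l true 164) (n (l true 364) (n (n (l true 1132) (n (n (l
  true 6252) (n (l true 10348) (n (n (n (l true 98404) (n (n (l true 426084) (n (l true 704612)
  (l false 865683))) (n (n (n (l true 1867876) (l false 1127827)) (l false 669075)) (l false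
  472467)))) (n (n (n (n (l true 999524) (n (l true 1376356) (l false 1586579))) (n (n (l true
  1785956) (l false 1357203)) (l false 832915))) (l false 176531)) (l false 112019))) (l false
  30099)))) (n (n (l true 12388) (l false 11667)) (l false 6547)))) (l false 915)))) (n (l true
  164) (n (n (l true 812) (l false 659)) (l false 467)))) (n (n (n (l true 460) (n (n (l true
  1740) (n (n (l true 6860) (n (l true 10956) (n (n (n (l true 99020) (n (n (l true 426700) (n (l
  true 705228) (l false 865571))) (n (n (n (l true 1868492) (l false 1127715)) (l false 668963))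
  (l false 472355)))) (n (n (n (n (l true 1000140) (n (l true 1376972) (l false 1586467))) (n (n
  (l true 1786572) (l false 1357091)) (l false 832803))) (l false 176419)) (l false 111907))) (l
  false 29987)))) (n (n (l true 13004) (l false 11555)) (l false 6435)))) (l false 819))) (l
  false 179)) (l false 99)))) (l false 11)) s)))

lemma piece (c : ℕ → Bool) : ∃ x : Bool, ∀ y : Bool,
    Ex c y (if ¬ (c 0 = c 1 ∧ c 1 = c 2) ∧ x = y then 1 else 0) := by
  have z : ∀ y, Ex c y 0 := fun y => ⟨fun _ => false, by simp, by simp⟩
  rcases chk_ok c tree 0 0 0 (by decide +kernel) (by simp) (by simp) with h | ⟨x, h⟩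
  · exact ⟨true, fun y => by rw [if_neg (by tauto)]; exact z y⟩
  · refine ⟨x, fun y => ?_⟩
    split_ifs with h'
    · rw [← h'.2]; exact h
    · exact z y

def phi (i j : ℕ) : Fin 58 :=
  Fin.ofNat 58 (if j < 3 then (if j < i then j else j + 1) else 1 + 18 * i + j)

def K : List (Fin 58 × Fin 58) := [(0, 1), (0, 2), (0, 3), (1, 2), (1, 3), (2, 3)]

def pm (i : ℕ) : List (Fin 58 × Fin 58) := pe.map (fun e => (phi i e.1, phi i e.2))

def EA : List (Fin 58 × Fin 58) := K ++ pm 0 ++ pm 1 ++ pm 2

def VA : List (Fin 58) := [0, 1, 2, 3] ++ inn.map (phi 0) ++ inn.map (phi 1) ++ inn.map (phi 2)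

def co : List (ℕ × ℕ) := [(0, 0), (1000000, 0), (0, 1000000), (322473, 366957), (368401, 558166), (486950, 385355),
  (248197, 624688), (262225, 658897), (354318, 491095), (318959, 576074), (378476, 506718),
  (300219, 619462), (317372, 596957), (297076, 614887), (292414, 625489), (294442, 624603),
  (284141, 635349), (285194, 634718), (290694, 628358), (288948, 630545), (293483, 625885),
  (291789, 627824), (76149, 506622), (133795, 353654), (127050, 611762), (81559, 615092),
  (157032, 474942), (104592, 544238), (117002, 473491), (82396, 572633), (86968, 555453), (89662,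
  573684), (84294, 580858), (83163, 579451), (82876, 590955), (82474, 589078), (83194, 583664),
  (82812, 585157), (82842, 580674), (82640, 581996), (505131, 88056), (336089, 152614), (593524,
  148746), (606949, 95830), (442314, 190853), (530800, 122580), (452159, 136404), (566764,
  96538), (548575, 102536), (565824, 105163), (574999, 98768), (573007, 97448), (583938, 97190),
  (582093, 96696), (576873, 97520), (578125, 97066), (573948, 97083), (574988, 96850)]

def Q : List ((ℕ × ℕ) × (ℕ × ℕ)) := [((0,0),(1000000,0)), ((0,0),(0,1000000)), ((0,0),(322473,366957)), ((1000000,0),(0,1000000)),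
  ((1000000,0),(322473,366957)), ((0,1000000),(322473,366957)), ((1000000,0),(368401,558166)),
  ((1000000,0),(486950,385355)), ((0,1000000),(368401,558166)), ((0,1000000),(248197,624688)),
  ((0,1000000),(262225,658897)), ((322473,366957),(486950,385355)),
  ((322473,366957),(248197,624688)), ((322473,366957),(354318,491095)),
  ((368401,558166),(486950,385355)), ((368401,558166),(262225,658897)),
  ((368401,558166),(318959,576074)), ((368401,558166),(378476,506718)),
  ((368401,558166),(300219,619462)), ((368401,558166),(317372,596957)),
  ((486950,385355),(354318,491095)), ((486950,385355),(378476,506718)),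
  ((248197,624688),(262225,658897)), ((248197,624688),(354318,491095)),
  ((248197,624688),(318959,576074)), ((262225,658897),(318959,576074)),
  ((262225,658897),(300219,619462)), ((262225,658897),(297076,614887)),
  ((262225,658897),(292414,625489)), ((262225,658897),(284141,635349)),
  ((262225,658897),(285194,634718)), ((354318,491095),(318959,576074)),
  ((354318,491095),(378476,506718)), ((318959,576074),(378476,506718)),
  ((318959,576074),(317372,596957)), ((318959,576074),(297076,614887)),
  ((300219,619462),(317372,596957)), ((300219,619462),(292414,625489)),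
  ((300219,619462),(294442,624603)), ((300219,619462),(285194,634718)),
  ((300219,619462),(293483,625885)), ((300219,619462),(291789,627824)),
  ((317372,596957),(297076,614887)), ((317372,596957),(292414,625489)),
  ((297076,614887),(292414,625489)), ((292414,625489),(294442,624603)),
  ((292414,625489),(284141,635349)), ((292414,625489),(290694,628358)),
  ((294442,624603),(290694,628358)), ((294442,624603),(293483,625885)),
  ((284141,635349),(285194,634718)), ((284141,635349),(290694,628358)),
  ((284141,635349),(288948,630545)), ((285194,634718),(288948,630545)),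
  ((285194,634718),(291789,627824)), ((290694,628358),(288948,630545)),
  ((290694,628358),(293483,625885)), ((288948,630545),(293483,625885)),
  ((288948,630545),(291789,627824)), ((293483,625885),(291789,627824)), ((0,0),(76149,506622)),
  ((0,0),(133795,353654)), ((0,1000000),(76149,506622)), ((0,1000000),(127050,611762)),
  ((0,1000000),(81559,615092)), ((322473,366957),(133795,353654)),
  ((322473,366957),(127050,611762)), ((322473,366957),(157032,474942)),
  ((76149,506622),(133795,353654)), ((76149,506622),(81559,615092)),
  ((76149,506622),(104592,544238)), ((76149,506622),(117002,473491)),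
  ((76149,506622),(82396,572633)), ((76149,506622),(86968,555453)),
  ((133795,353654),(157032,474942)), ((133795,353654),(117002,473491)),
  ((127050,611762),(81559,615092)), ((127050,611762),(157032,474942)),
  ((127050,611762),(104592,544238)), ((81559,615092),(104592,544238)),
  ((81559,615092),(82396,572633)), ((81559,615092),(89662,573684)),
  ((81559,615092),(84294,580858)), ((81559,615092),(82876,590955)),
  ((81559,615092),(82474,589078)), ((157032,474942),(104592,544238)),
  ((157032,474942),(117002,473491)), ((104592,544238),(117002,473491)),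
  ((104592,544238),(86968,555453)), ((104592,544238),(89662,573684)),
  ((82396,572633),(86968,555453)), ((82396,572633),(84294,580858)),
  ((82396,572633),(83163,579451)), ((82396,572633),(82474,589078)),
  ((82396,572633),(82842,580674)), ((82396,572633),(82640,581996)),
  ((86968,555453),(89662,573684)), ((86968,555453),(84294,580858)),
  ((89662,573684),(84294,580858)), ((84294,580858),(83163,579451)),
  ((84294,580858),(82876,590955)), ((84294,580858),(83194,583664)),
  ((83163,579451),(83194,583664)), ((83163,579451),(82842,580674)),
  ((82876,590955),(82474,589078)), ((82876,590955),(83194,583664)),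
  ((82876,590955),(82812,585157)), ((82474,589078),(82812,585157)),
  ((82474,589078),(82640,581996)), ((83194,583664),(82812,585157)),
  ((83194,583664),(82842,580674)), ((82812,585157),(82842,580674)),
  ((82812,585157),(82640,581996)), ((82842,580674),(82640,581996)), ((0,0),(505131,88056)),
  ((0,0),(336089,152614)), ((1000000,0),(505131,88056)), ((1000000,0),(593524,148746)),
  ((1000000,0),(606949,95830)), ((322473,366957),(336089,152614)),
  ((322473,366957),(593524,148746)), ((322473,366957),(442314,190853)),
  ((505131,88056),(336089,152614)), ((505131,88056),(606949,95830)),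
  ((505131,88056),(530800,122580)), ((505131,88056),(452159,136404)),
  ((505131,88056),(566764,96538)), ((505131,88056),(548575,102536)),
  ((336089,152614),(442314,190853)), ((336089,152614),(452159,136404)),
  ((593524,148746),(606949,95830)), ((593524,148746),(442314,190853)),
  ((593524,148746),(530800,122580)), ((606949,95830),(530800,122580)),
  ((606949,95830),(566764,96538)), ((606949,95830),(565824,105163)),
  ((606949,95830),(574999,98768)), ((606949,95830),(583938,97190)),
  ((606949,95830),(582093,96696)), ((442314,190853),(530800,122580)),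
  ((442314,190853),(452159,136404)), ((530800,122580),(452159,136404)),
  ((530800,122580),(548575,102536)), ((530800,122580),(565824,105163)),
  ((566764,96538),(548575,102536)), ((566764,96538),(574999,98768)),
  ((566764,96538),(573007,97448)), ((566764,96538),(582093,96696)),
  ((566764,96538),(573948,97083)), ((566764,96538),(574988,96850)),
  ((548575,102536),(565824,105163)), ((548575,102536),(574999,98768)),
  ((565824,105163),(574999,98768)), ((574999,98768),(573007,97448)),
  ((574999,98768),(583938,97190)), ((574999,98768),(576873,97520)),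
  ((573007,97448),(576873,97520)), ((573007,97448),(573948,97083)),
  ((583938,97190),(582093,96696)), ((583938,97190),(576873,97520)),
  ((583938,97190),(578125,97066)), ((582093,96696),(578125,97066)),
  ((582093,96696),(574988,96850)), ((576873,97520),(578125,97066)),
  ((576873,97520),(573948,97083)), ((578125,97066),(573948,97083)),
  ((578125,97066),(574988,96850)), ((573948,97083),(574988,96850))]

lemma pl2 : chkV co Q = true := by decide +kernel

lemma pl3 : chkE Q Q = true := by decide +kernel

lemma planar : IsPlanar (gr EA) :=
  planar_nat co EA Q (by decide +kernel) (by decide +kernel) (by decide +kernel) pl2 pl3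

lemma comb (c : Fin 58 → Bool)
    (h : ∀ (s : Fin 58 → Bool) (x : Bool), (∀ v, s v = true → c v = x) →
      EA.countP (fun e => s e.1 && s e.2) ≤ VA.countP s) : False := by
  have key : ∀ (x : Bool) (k0 k1 k2 : ℕ), Ex (fun j => c (phi 0 j)) x k0 →
      Ex (fun j => c (phi 1 j)) x k1 → Ex (fun j => c (phi 2 j)) x k2 →
      K.countP (fun e => (c e.1 == x) && (c e.2 == x)) + k0 + k1 + k2 ≤
        ([0, 1, 2, 3] : List (Fin 58)).countP (fun v => c v == x) := by
    rintro x k0 k1 k2 ⟨S0, a0, b0⟩ ⟨S1, a1, b1⟩ ⟨S2, a2, b2⟩
    let S : ℕ → ℕ → Bool := fun i => if i = 0 then S0 else if i = 1 then S1 else S2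
    have aS : ∀ i < 3, ∀ j, S i j = true → c (phi i j) = x := by
      intro i hi j
      interval_cases i
      · exact a0 j
      · exact a1 j
      · exact a2 j
    let s : Fin 58 → Bool := fun v =>
      if v.val < 4 then c v == x else S ((v.val - 4) / 18) ((v.val - 4) % 18 + 3)
    have f1 : ∀ i < 3, ∀ j < 21, 3 ≤ j → ¬ (phi i j).val < 4 ∧ ((phi i j).val - 4) / 18 = i ∧
        ((phi i j).val - 4) % 18 + 3 = j := by decide +kernel
    have f2 : ∀ i < 3, ∀ j < 3, (phi i j).val < 4 := by decide +kernel
    have f3 : ∀ v : Fin 58, ¬ v.val < 4 → (v.val - 4) / 18 < 3 ∧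
        phi ((v.val - 4) / 18) ((v.val - 4) % 18 + 3) = v := by decide +kernel
    have g1 : ∀ i < 3, ∀ j < 21, 3 ≤ j → s (phi i j) = S i j := by
      intro i hi j hj h3
      obtain ⟨p1, p2, p3⟩ := f1 i hi j hj h3
      simp only [s, if_neg p1, p2, p3]
    have g2 : ∀ i < 3, ∀ j < 21, S i j = true → s (phi i j) = true := by
      intro i hi j hj hs
      by_cases h3 : 3 ≤ j
      · rw [g1 i hi j hj h3, hs]
      · simp only [s, if_pos (f2 i hi j (by omega)), aS i hi j hs, beq_self_eq_true]
    have g3 : ∀ i < 3, (inn.map (phi i)).countP s = inn.countP (S i) := by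
      intro i hi
      rw [List.countP_map]
      refine List.countP_congr (fun j hj => ?_)
      have : j < 21 ∧ 3 ≤ j := by simp [inn] at hj; omega
      simp [g1 i hi j this.1 this.2]
    have g4 : ∀ i < 3, pe.countP (fun e => S i e.1 && S i e.2) ≤
        (pm i).countP (fun e => s e.1 && s e.2) := by
      intro i hi
      rw [pm, List.countP_map]
      refine List.countP_mono_left (fun e he hs => ?_)
      have : ∀ e ∈ pe, e.1 < 21 ∧ e.2 < 21 := by decide +kernel
      rw [Bool.and_eq_true] at hs
      simp [g2 i hi _ (this e he).1 hs.1, g2 i hi _ (this e he).2 hs.2]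
    have H := h s x (fun v hv => by
      by_cases h4 : v.val < 4
      · simpa [s, h4] using hv
      · obtain ⟨p1, p2⟩ := f3 v h4
        rw [← p2]; apply aS _ p1; simpa [s, h4] using hv)
    rw [EA, VA, List.countP_append, List.countP_append, List.countP_append, List.countP_append,
      List.countP_append, List.countP_append, g3 0 (by omega), g3 1 (by omega), g3 2 (by omega)]
      at H
    have q0 := g4 0 (by omega)
    have q1 := g4 1 (by omega)
    have q2 := g4 2 (by omega)
    have e1 : K.countP (fun e => s e.1 && s e.2) =
      K.countP (fun e => (c e.1 == x) && (c e.2 == x)) := rfl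
    have e2 : ([0, 1, 2, 3] : List (Fin 58)).countP s =
      ([0, 1, 2, 3] : List (Fin 58)).countP (fun v => c v == x) := rfl
    have s0 : S 0 = S0 := rfl
    have s1 : S 1 = S1 := rfl
    have s2 : S 2 = S2 := rfl
    rw [s0] at q0 H; rw [s1] at q1 H; rw [s2] at q2 H
    omega
  obtain ⟨x0, h0⟩ := piece (fun j => c (phi 0 j))
  obtain ⟨x1, h1⟩ := piece (fun j => c (phi 1 j))
  obtain ⟨x2, h2⟩ := piece (fun j => c (phi 2 j))
  have t1 := key true _ _ _ (h0 true) (h1 true) (h2 true)
  have t2 := key false _ _ _ (h0 false) (h1 false) (h2 false)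
  have p : phi 0 0 = 1 ∧ phi 0 1 = 2 ∧ phi 0 2 = 3 ∧ phi 1 0 = 0 ∧ phi 1 1 = 2 ∧ phi 1 2 = 3 ∧
    phi 2 0 = 0 ∧ phi 2 1 = 1 ∧ phi 2 2 = 3 := by decide
  obtain ⟨p1, p2, p3, p4, p5, p6, p7, p8, p9⟩ := p
  simp only [p1, p2, p3, p4, p5, p6, p7, p8, p9, K, List.countP_cons, List.countP_nil] at t1 t2
  revert t1 t2
  generalize c 0 = c0
  generalize c 1 = c1
  generalize c 2 = c2
  generalize c 3 = c3
  clear h0 h1 h2
  revert c0 c1 c2 c3 x0 x1 x2
  decide +kernel

lemma cnt {V : Type} (EA : List (V × V)) (VA : List V)
    (hp : EA.Pairwise (fun e g => e ≠ g ∧ e ≠ g.swap)) (hV : ∀ v, v ∈ VA)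
    (A : V → V → Prop) (s : V → Bool) (hA : ∀ e ∈ EA, A e.1 e.2 ∨ A e.2 e.1)
    (h1 : ∀ v, s v = true → ∀ a b, A v a → A v b → a = b) :
    EA.countP (fun e => s e.1 && s e.2) ≤ VA.countP s := by
  classical
  let f : V × V → V := fun e => if A e.1 e.2 then e.1 else e.2
  rw [List.countP_eq_length_filter, List.countP_eq_length_filter,
    ← List.length_map (f := f)]
  refine List.Subperm.length_le (List.subperm_of_subset ?_ ?_)
  · rw [List.Nodup, List.pairwise_map]
    refine List.Pairwise.imp_of_mem ?_ (hp.sublist List.filter_sublist)
    rintro ⟨a, b⟩ ⟨a', b'⟩ he hg ⟨n1, n2⟩ hf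
    rw [List.mem_filter, Bool.and_eq_true] at he hg
    have k1 := hA _ he.1
    have k2 := hA _ hg.1
    simp only [f, Prod.swap, ne_eq, Prod.mk.injEq, not_and] at *
    split_ifs at hf with i1 i2 i2
    · subst hf; exact n1 rfl (h1 a he.2.1 _ _ i1 i2)
    · subst hf; exact n2 rfl (h1 a he.2.1 _ _ i1 (k2.resolve_left i2))
    · subst hf; exact n2 (h1 b he.2.2 _ _ (k1.resolve_left i1) i2) rfl
    · subst hf; exact n1 (h1 b he.2.2 _ _ (k1.resolve_left i1) (k2.resolve_left i2)) rfl
  · intro v hv
    obtain ⟨e, he, rfl⟩ := List.mem_map.1 hv
    rw [List.mem_filter, Bool.and_eq_true] at he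
    rw [List.mem_filter]
    refine ⟨hV _, ?_⟩
    simp only [f]
    split_ifs
    · exact he.2.1
    · exact he.2.2

lemma hp : EA.Pairwise (fun e g => e ≠ g ∧ e ≠ g.swap) := by decide +kernel

lemma hV : ∀ v : Fin 58, v ∈ VA := by decide +kernel

lemma hne : ∀ e ∈ EA, e.1 ≠ e.2 := by
  have : EA.all (fun e => e.1 != e.2) = true := by decide +kernel
  simpa only [List.all_eq_true, bne_iff_ne] using this

theorem result : ∃ G : SimpleGraph (Fin 58), IsMaxPlanar G ∧
    ∀ D : Fin 58 → Fin 58 → Prop, IsOrientation G D →
      ∃ v, 2 ≤ {w | D v w}.ncard ∧ 2 ≤ {w | D w v}.ncard := by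
  classical
  obtain ⟨G, hG, hm⟩ := exists_max _ planar
  refine ⟨G, hm, fun D hD => ?_⟩
  by_contra hc
  push Not at hc
  have hA : ∀ e ∈ EA, D e.1 e.2 ∨ D e.2 e.1 := by
    intro e he
    have := hD.2 e.1 e.2 (hG (show (gr EA).Adj e.1 e.2 from ⟨hne e he, Or.inl he⟩))
    by_cases h : D e.2 e.1
    · exact Or.inr h
    · exact Or.inl (this.2 h)
  refine comb (fun v => decide ({w | D v w}.ncard ≤ 1)) (fun s x hs => ?_)
  cases x
  · refine cnt EA VA hp hV (fun a b => D b a) s (fun e he => (hA e he).symm) (fun v hv a b ha hb => ?_)
    have h1 : ¬ {w | D v w}.ncard ≤ 1 := of_decide_eq_false (hs v hv)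
    have h2 : {w | D w v}.ncard ≤ 1 := by have := hc v (by omega); omega
    exact (Set.ncard_le_one (Set.toFinite _)).1 h2 a ha b hb
  · refine cnt EA VA hp hV D s hA (fun v hv a b ha hb => ?_)
    exact (Set.ncard_le_one (Set.toFinite _)).1 (of_decide_eq_true (hs v hv)) a ha b hb

end Pool.Agent.Results.MP_7589f8_co.Counter
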